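import Pool.Agent.Work.MP_648063_co.Defs

set_option autoImplicit false

namespace Pool.Agent.Work.MP_648063_co

open SimpleGraph Finset

universe u

section counting

variable {α β : Type*} [DecidableEq α] [DecidableEq β]

/-- ordered pairs of distinct elements of `D` in the same fibre of `φ`. -/
def pairs (D : Finset α) (φ : α → β) : Finset (α × α) :=
  (D ×ˢ D).filter fun x => x.1 ≠ x.2 ∧ φ x.1 = φ x.2

lemma card_pairs (D : Finset α) (Y : Finset β) (φ : α → β) (h : ∀ a ∈ D, φ a ∈ Y) :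
    ((pairs D φ).card : ℤ) = ∑ y ∈ Y, (((D.filter fun a => φ a = y).card : ℤ) ^ 2
      - (D.filter fun a => φ a = y).card) := by
  rw [Finset.card_eq_sum_card_fiberwise (f := fun x : α × α => φ x.1) (t := Y)]
  · push_cast
    refine Finset.sum_congr rfl fun y _ => ?_
    have : (pairs D φ).filter (fun x : α × α => φ x.1 = y)
        = (D.filter fun a => φ a = y).offDiag := by
      ext ⟨a, b⟩
      simp only [pairs, Finset.mem_filter, Finset.mem_product, Finset.mem_offDiag]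
      constructor
      · rintro ⟨⟨⟨ha, hb⟩, hne, he⟩, hy⟩
        exact ⟨⟨ha, hy⟩, ⟨hb, he ▸ hy⟩, hne⟩
      · rintro ⟨⟨ha, hy⟩, ⟨hb, hy'⟩, hne⟩
        exact ⟨⟨⟨ha, hb⟩, hne, hy.trans hy'.symm⟩, hy⟩
    rw [this, Finset.offDiag_card, Nat.cast_sub (Nat.le_mul_self _)]
    push_cast
    ring
  · intro x hx
    simp only [pairs, Finset.coe_filter, Finset.mem_product, Set.mem_ofPred_eq] at hx
    exact h _ hx.1.1

lemma card_pairs_ge (D : Finset α) (Y : Finset β) (φ : α → β) (h : ∀ a ∈ D, φ a ∈ Y) (q : ℕ) :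
    2 * (q : ℤ) * D.card - Y.card * (q * (q + 1)) ≤ (pairs D φ).card := by
  rw [card_pairs D Y φ h, Finset.card_eq_sum_card_fiberwise (f := φ) (t := Y) h]
  push_cast
  rw [Finset.mul_sum, ← nsmul_eq_mul, ← Finset.sum_const, ← Finset.sum_sub_distrib]
  refine Finset.sum_le_sum fun y _ => ?_
  generalize (D.filter fun a => φ a = y).card = d
  rcases le_or_gt d q with h1 | h1
  · have : (d : ℤ) ≤ q := by exact_mod_cast h1
    nlinarith
  · have : (q : ℤ) + 1 ≤ d := by exact_mod_cast h1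
    nlinarith

lemma card_pairs_eq (D : Finset α) (Y : Finset β) (φ : α → β) (h : ∀ a ∈ D, φ a ∈ Y) (q : ℕ)
    (hq : ∀ y ∈ Y, (D.filter fun a => φ a = y).card = q ∨
      (D.filter fun a => φ a = y).card = q + 1) :
    ((pairs D φ).card : ℤ) = 2 * (q : ℤ) * D.card - Y.card * (q * (q + 1)) := by
  rw [card_pairs D Y φ h, Finset.card_eq_sum_card_fiberwise (f := φ) (t := Y) h]
  push_cast
  rw [Finset.mul_sum, ← nsmul_eq_mul, ← Finset.sum_const, ← Finset.sum_sub_distrib]
  refine Finset.sum_congr rfl fun y hy => ?_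
  rcases hq y hy with h1 | h1 <;> rw [h1] <;> push_cast <;> ring

end counting

variable {V : Type u}

/-- the intersection graph of the tree-cycles. -/
def interGraph (G T : SimpleGraph V) : SimpleGraph (Set (Sym2 V)) where
  Adj C C' := C ∈ treeCycles G T ∧ C' ∈ treeCycles G T ∧ C ≠ C' ∧ (C ∩ C').Nonempty
  symm := ⟨fun _ _ ⟨h1, h2, h3, h4⟩ => ⟨h2, h1, h3.symm, by rwa [Set.inter_comm]⟩⟩
  loopless := ⟨fun _ h => h.2.2.1 rfl⟩

lemma two_mul_capT [Finite V] (G T : SimpleGraph V) :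
    2 * capT G T = {x : Set (Sym2 V) × Set (Sym2 V) | (interGraph G T).Adj x.1 x.2}.ncard := by
  classical
  have : Fintype (Set (Sym2 V)) := Fintype.ofFinite _
  have h1 : capT G T = (interGraph G T).edgeFinset.card := by
    rw [capT, ← Set.ncard_coe_finset, coe_edgeFinset]
    congr 1
    ext p
    induction p using Sym2.ind with
    | _ C C' =>
      simp only [Set.mem_ofPred_eq, mem_edgeSet]
      constructor
      · rintro ⟨A, hA, B, hB, he, hne, hi⟩
        rw [← mem_edgeSet, he, mem_edgeSet]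
        exact ⟨hA, hB, hne, hi⟩
      · rintro ⟨h1, h2, h3, h4⟩
        exact ⟨C, h1, C', h2, rfl, h3, h4⟩
  rw [h1, two_mul_card_edgeFinset, ← Set.ncard_coe_finset]
  congr 1
  ext ⟨a, b⟩
  simp

/-- `x` is the neighbour of `a` in the direction of `b`. -/
def Toward (T : SimpleGraph V) (a b x : V) : Prop :=
  T.Adj a x ∧ (T.deleteEdges {s(a, x)}).Reachable x b

lemma exists_toward {T : SimpleGraph V} (hT : T.IsTree) {a b : V} (hab : a ≠ b) :
    ∃ x, Toward T a b x := by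
  classical
  obtain ⟨p, hp⟩ := hT.connected.exists_isPath a b
  cases p with
  | nil => exact absurd rfl hab
  | @cons _ x _ h p =>
    refine ⟨x, h, ?_⟩
    rw [Walk.cons_isPath_iff] at hp
    refine ⟨p.toDeleteEdges _ fun e he he' => ?_⟩
    rw [Set.mem_singleton_iff] at he'
    exact hp.2 (Walk.fst_mem_support_of_mem_edges _ (he' ▸ he))

lemma not_reach {T : SimpleGraph V} (hT : T.IsTree) {a x : V} (h : T.Adj a x) :
    ¬ (T.deleteEdges {s(a, x)}).Reachable a x :=
  isBridge_iff.1 (isAcyclic_iff_forall_adj_isBridge.1 hT.isAcyclic h)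

lemma Toward.mem_treeCycle {T : SimpleGraph V} (hT : T.IsTree) {a b x : V} (hab : a ≠ b)
    (hn : ¬ T.Adj a b) (h : Toward T a b x) :
    s(a, x) ∈ treeCycle T s(a, b) ∧ s(a, b) ∈ treeCycle T s(a, b) := by
  classical
  obtain ⟨p, hp⟩ := h.2.exists_isPath
  have ha : a ∉ p.support := fun ha => not_reach hT h.1 ⟨(p.takeUntil a ha).reverse⟩
  have hle : T.deleteEdges {s(a, x)} ≤ T ⊔ fromEdgeSet {s(a, b)} :=
    (deleteEdges_le _).trans le_sup_left
  have hax : (T ⊔ fromEdgeSet {s(a, b)}).Adj a x := Or.inl h.1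
  have hba : (T ⊔ fromEdgeSet {s(a, b)}).Adj b a := by
    right
    rw [fromEdgeSet_adj]
    exact ⟨by simp [Sym2.eq_swap], hab.symm⟩
  have hq : (Walk.cons hax (p.mapLe hle)).IsPath := by
    rw [Walk.cons_isPath_iff]
    exact ⟨hp.mapLe hle, by simpa using ha⟩
  have hc : (Walk.cons hba (Walk.cons hax (p.mapLe hle))).IsCycle := by
    rw [Walk.cons_isCycle_iff]
    refine ⟨hq, ?_⟩
    intro he
    rw [Walk.edges_cons, List.mem_cons] at he
    rcases he with he | he
    · apply hn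
      rw [← mem_edgeSet, Sym2.eq_swap, he]
      exact h.1
    · rw [Walk.edges_mapLe_eq_edges] at he
      have := p.edges_subset_edgeSet he
      rw [mem_edgeSet] at this
      exact hn (deleteEdges_le _ this).symm
  constructor
  · exact ⟨b, _, hc, by simp⟩
  · exact ⟨b, _, hc, by simp [Sym2.eq_swap]⟩

lemma treeCycle_subset (T : SimpleGraph V) (e : Sym2 V) {f : Sym2 V} (hf : f ∈ treeCycle T e) :
    f ∈ T.edgeSet ∨ f = e := by
  obtain ⟨v, c, -, hf⟩ := hf
  have := c.edges_subset_edgeSet hf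
  rw [edgeSet_sup, edgeSet_fromEdgeSet] at this
  rcases this with h | h
  · exact Or.inl h
  · exact Or.inr h.1

lemma treeCycle_inj {T : SimpleGraph V} (hT : T.IsTree) {a b : V} (hab : a ≠ b)
    (hn : ¬ T.Adj a b) {e : Sym2 V} (h : treeCycle T s(a, b) = treeCycle T e) : s(a, b) = e := by
  obtain ⟨x, hx⟩ := exists_toward hT hab
  have := (hx.mem_treeCycle hT hab hn).2
  rw [h] at this
  exact (treeCycle_subset T e this).resolve_left hn

lemma Toward.ne {T : SimpleGraph V} {a b x y : V} (hab : a ≠ b) (hn : ¬ T.Adj a b)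
    (h : Toward T a b x) : s(a, x) ≠ s(b, y) := by
  intro he
  rw [Sym2.eq_iff] at he
  rcases he with ⟨h1, -⟩ | ⟨-, h2⟩
  · exact hab h1
  · exact hn (h2 ▸ h.1)

lemma Toward.first_eq {T : SimpleGraph V} (hT : T.IsTree) {a b c d x y x' y' : V} (hab : a ≠ b)
    (hn : ¬ T.Adj a b) (h1 : Toward T a b x) (h2 : Toward T b a y) (h3 : Toward T c d x')
    (e1 : s(a, x) = s(c, x')) (e2 : s(b, y) = s(d, y')) : a = c := by
  by_contra hac
  have hne := h1.ne (y := y) hab hn
  rw [Sym2.eq_iff] at e1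
  rcases e1 with ⟨h, -⟩ | ⟨rfl, rfl⟩
  · exact hac h
  have r1 := h1.2
  have r2 := h3.2
  rw [Sym2.eq_swap] at r2
  have r3 : (T.deleteEdges {s(a, x)}).Reachable b d := by
    rw [Sym2.eq_iff] at e2
    rcases e2 with ⟨h, -⟩ | ⟨-, h⟩
    · rw [h]
    · subst h
      refine Adj.reachable ?_
      rw [deleteEdges_adj]
      exact ⟨h2.1, fun h => hne (Set.mem_singleton_iff.1 h).symm⟩
  exact not_reach hT h1.1 (r2.trans (r3.symm.trans r1.symm))

open Classical in
/-- ordered non-tree edges. -/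
noncomputable def nonTree [Fintype V] (G T : SimpleGraph V) : Finset (V × V) :=
  univ.filter fun d => G.Adj d.1 d.2 ∧ ¬ T.Adj d.1 d.2

lemma mem_nonTree [Fintype V] {G T : SimpleGraph V} {d : V × V} :
    d ∈ nonTree G T ↔ G.Adj d.1 d.2 ∧ ¬ T.Adj d.1 d.2 := by
  simp [nonTree]

lemma two_mul_ncard_edgeSet [Finite V] (K : SimpleGraph V) :
    2 * K.edgeSet.ncard = {x : V × V | K.Adj x.1 x.2}.ncard := by
  classical
  have := Fintype.ofFinite V
  have h1 : K.edgeSet.ncard = K.edgeFinset.card := by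
    rw [← Set.ncard_coe_finset, coe_edgeFinset]
  rw [h1, two_mul_card_edgeFinset, ← Set.ncard_coe_finset]
  refine congrArg Set.ncard ?_
  ext ⟨a, b⟩
  simp

lemma card_nonTree [Fintype V] {G T : SimpleGraph V} (hle : T ≤ G) (hT : T.IsTree) :
    (nonTree G T).card = 2 * nu G := by
  classical
  have h1 : (nonTree G T).card = 2 * (G \ T).edgeSet.ncard := by
    rw [two_mul_ncard_edgeSet, ← Set.ncard_coe_finset]
    refine congrArg Set.ncard ?_
    ext ⟨a, b⟩
    simp [mem_nonTree]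
  have h2 : T.edgeSet.ncard + 1 = Nat.card V := by
    rw [Nat.card_eq_fintype_card, ← hT.card_edgeFinset, ← Set.ncard_coe_finset, coe_edgeFinset]
  have h4 : T.edgeSet ⊆ G.edgeSet := edgeSet_mono hle
  have h5 := Set.ncard_le_ncard h4 (Set.toFinite _)
  rw [h1, edgeSet_sdiff, Set.ncard_diff h4 (Set.toFinite _), nu, ← h2]
  omega

lemma capT_ge [Fintype V] {G T : SimpleGraph V} (hle : T ≤ G) (hT : T.IsTree) (q : ℕ) :
    2 * (q : ℤ) * (2 * nu G : ℕ) - ((Nat.card V - 1 : ℕ) : ℤ) * (q * (q + 1))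
      ≤ (2 * capT G T : ℕ) := by
  classical
  have hx : ∀ d : V × V, ∃ x, d.1 ≠ d.2 → Toward T d.1 d.2 x := by
    intro d
    by_cases h : d.1 = d.2
    · exact ⟨d.1, fun h' => absurd h h'⟩
    · obtain ⟨x, hx⟩ := exists_toward hT h
      exact ⟨x, fun _ => hx⟩
  choose nx hnx using hx
  set φ : V × V → Sym2 V := fun d => s(d.1, nx d) with hφ
  have hmap : ∀ d ∈ nonTree G T, φ d ∈ T.edgeFinset := by
    intro d hd
    rw [mem_edgeFinset]
    exact (hnx d (mem_nonTree.1 hd).1.ne).1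
  have h1 := card_pairs_ge (nonTree G T) T.edgeFinset φ hmap q
  have h2 : T.edgeFinset.card = Nat.card V - 1 := by
    rw [Nat.card_eq_fintype_card, ← hT.card_edgeFinset]
    rfl
  rw [card_nonTree hle hT, h2] at h1
  refine h1.trans ?_
  rw [two_mul_capT, Nat.cast_le, ← Set.ncard_coe_finset]
  have hswap : ∀ a b : V, G.Adj a b → ¬ T.Adj a b → φ (a, b) ≠ φ (b, a) := fun a b h hn =>
    (hnx (a, b) h.ne).ne h.ne hn
  refine Set.ncard_le_ncard_of_injOn
    (fun x => (treeCycle T s(x.1.1, x.1.2), treeCycle T s(x.2.1, x.2.2))) ?_ ?_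
  · rintro ⟨⟨a, b⟩, ⟨c, d⟩⟩ hx
    simp only [pairs, Finset.coe_filter, Finset.mem_product, Set.mem_ofPred_eq, mem_nonTree] at hx
    obtain ⟨⟨⟨hab, hab'⟩, ⟨hcd, hcd'⟩⟩, hne, he⟩ := hx
    refine ⟨⟨_, ⟨hab, hab'⟩, rfl⟩, ⟨_, ⟨hcd, hcd'⟩, rfl⟩, ?_, φ (a, b), ?_, ?_⟩
    · intro h
      have := treeCycle_inj hT hab.ne hab' h
      rw [Sym2.eq_iff] at this
      rcases this with ⟨rfl, rfl⟩ | ⟨rfl, rfl⟩
      · exact hne rfl
      · exact hswap _ _ hab hab' he
    · exact ((hnx (a, b) hab.ne).mem_treeCycle hT hab.ne hab').1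
    · rw [he]
      exact ((hnx (c, d) hcd.ne).mem_treeCycle hT hcd.ne hcd').1
  · rintro ⟨⟨a, b⟩, ⟨c, d⟩⟩ hx ⟨⟨a', b'⟩, ⟨c', d'⟩⟩ hy hxy
    simp only [pairs, Finset.coe_filter, Finset.mem_product, Set.mem_ofPred_eq, mem_nonTree]
      at hx hy
    obtain ⟨⟨⟨hab, hab'⟩, ⟨hcd, hcd'⟩⟩, hne, he⟩ := hx
    obtain ⟨-, -, he'⟩ := hy
    simp only [Prod.mk.injEq] at hxy
    have e1 := treeCycle_inj hT hab.ne hab' hxy.1
    have e2 := treeCycle_inj hT hcd.ne hcd' hxy.2
    rw [Sym2.eq_iff] at e1 e2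
    rcases e1 with ⟨rfl, rfl⟩ | ⟨rfl, rfl⟩ <;> rcases e2 with ⟨rfl, rfl⟩ | ⟨rfl, rfl⟩
    · rfl
    · exact absurd (he.symm.trans he') (hswap _ _ hcd hcd')
    · exact absurd (he.trans he'.symm) (hswap _ _ hab hab')
    · exfalso
      apply hne
      have k1 := Toward.first_eq hT hab.ne hab' (hnx (a, b) hab.ne) (hnx (b, a) hab.ne.symm)
        (hnx (c, d) hcd.ne) he he'
      have k2 := Toward.first_eq hT hab.ne.symm (fun h => hab' h.symm) (hnx (b, a) hab.ne.symm)
        (hnx (a, b) hab.ne) (hnx (d, c) hcd.ne.symm) he' he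
      rw [k1, k2]

lemma star_treeCycle {u : V} {e f : Sym2 V} (hf : f ∈ treeCycle (starGraph u) e) :
    f = e ∨ ∃ x ∈ e, f = s(u, x) := by
  rcases treeCycle_subset _ _ hf with h | h
  · right
    obtain ⟨x, hxu, rfl⟩ : ∃ x, x ≠ u ∧ f = s(u, x) := by
      induction f using Sym2.ind with
      | _ a b =>
        rw [mem_edgeSet, starGraph_adj] at h
        rcases h with ⟨hne, rfl | rfl⟩
        · exact ⟨b, hne.symm, rfl⟩
        · exact ⟨a, hne, Sym2.eq_swap⟩
    refine ⟨x, ?_, rfl⟩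
    by_contra hxe
    obtain ⟨v, c, hc, hmem⟩ := hf
    refine IsBridge.notMem_edges_of_isCycle ?_ hc hmem
    rw [isBridge_iff]
    rintro ⟨p⟩
    have hp := p.reverse
    cases hp with
    | nil => exact hxu rfl
    | @cons _ y _ hadj _ =>
      rw [deleteEdges_adj] at hadj
      obtain ⟨h1 | h1, h2⟩ := hadj
      · rw [starGraph_adj] at h1
        rcases h1.2 with h3 | h3
        · exact hxu h3
        · exact h2 (by simp [h3, Sym2.eq_swap])
      · rw [fromEdgeSet_adj, Set.mem_singleton_iff] at h1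
        exact hxe (h1.1 ▸ Sym2.mem_mk_left x y)
  · exact Or.inl h

lemma capT_star_le [Fintype V] {G : SimpleGraph V} {u : V} (hu : ∀ v, v ≠ u → G.Adj u v) (q : ℕ)
    (hq : ∀ v, v ≠ u → (G.neighborSet v).ncard = q + 1 ∨ (G.neighborSet v).ncard = q + 2) :
    ((2 * capT G (starGraph u) : ℕ) : ℤ)
      ≤ 2 * (q : ℤ) * (2 * nu G : ℕ) - ((Nat.card V - 1 : ℕ) : ℤ) * (q * (q + 1)) := by
  classical
  have hle : starGraph u ≤ G := by
    intro a b h
    rw [starGraph_adj] at h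
    rcases h with ⟨hne, rfl | rfl⟩
    · exact hu _ hne.symm
    · exact (hu _ hne).symm
  have hmap : ∀ d ∈ nonTree G (starGraph u), d.1 ∈ univ.erase u := by
    intro d hd
    rw [mem_nonTree, starGraph_adj] at hd
    exact Finset.mem_erase.2 ⟨fun h => hd.2 ⟨hd.1.ne, Or.inl h⟩, Finset.mem_univ _⟩
  have h1 := card_pairs_eq (nonTree G (starGraph u)) (univ.erase u) Prod.fst hmap q (by
    intro y hy
    have hy' := (Finset.mem_erase.1 hy).1
    have h2 : ((nonTree G (starGraph u)).filter fun a => a.1 = y).card + 1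
        = (G.neighborSet y).ncard := by
      have h3 : ((nonTree G (starGraph u)).filter fun a => a.1 = y)
          = ((G.neighborFinset y).erase u).map ⟨fun z => (y, z), fun _ _ h => (Prod.mk.inj h).2⟩ := by
        ext ⟨a, b⟩
        simp only [Finset.mem_filter, mem_nonTree, starGraph_adj, Finset.mem_map,
          Finset.mem_erase, mem_neighborFinset, Function.Embedding.coeFn_mk, Prod.mk.injEq]
        constructor
        · rintro ⟨⟨h1, h2⟩, rfl⟩
          exact ⟨b, ⟨fun h => h2 ⟨h1.ne, Or.inr h⟩, h1⟩, rfl, rfl⟩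
        · rintro ⟨z, ⟨h1, h2⟩, rfl, rfl⟩
          exact ⟨⟨h2, fun h => h.2.elim hy' h1⟩, rfl⟩
      rw [h3, Finset.card_map, Finset.card_erase_add_one (by simpa using (hu y hy').symm),
        ← Set.ncard_coe_finset, coe_neighborFinset]
    rcases hq y hy' with h | h <;> omega)
  rw [card_nonTree hle (isTree_starGraph u), Finset.card_erase_of_mem (Finset.mem_univ u),
    Finset.card_univ, ← Nat.card_eq_fintype_card] at h1
  rw [← h1, two_mul_capT, Nat.cast_le, ← Set.ncard_coe_finset]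
  refine le_trans (Set.ncard_le_ncard ?_ (Set.toFinite _)) (Set.ncard_image_le
    (f := fun x : (V × V) × (V × V) =>
      (treeCycle (starGraph u) s(x.1.1, x.1.2), treeCycle (starGraph u) s(x.2.1, x.2.2)))
    (Set.toFinite _))
  rintro ⟨C, C'⟩ ⟨⟨e, he, rfl⟩, ⟨e', he', rfl⟩, hne, f, hf, hf'⟩
  have hee : e ≠ e' := fun h => hne (by rw [h])
  have hst : ∀ x, ∀ g ∈ G.edgeSet \ (starGraph u).edgeSet, g ≠ s(u, x) := by
    rintro x g hg rfl
    exact hg.2 (starGraph_center_adj (G.ne_of_adj hg.1))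
  obtain ⟨x, hx, hx'⟩ : ∃ x, x ∈ e ∧ x ∈ e' := by
    rcases star_treeCycle hf with h | ⟨x, hx, h⟩ <;>
      rcases star_treeCycle hf' with h' | ⟨x', hx', h'⟩
    · exact absurd (h.symm.trans h') hee
    · exact absurd (h.symm.trans h') (hst _ _ he)
    · exact absurd (h'.symm.trans h) (hst _ _ he')
    · have := Sym2.congr_right.1 (h.symm.trans h')
      exact ⟨x, hx, this ▸ hx'⟩
  obtain ⟨a, rfl⟩ := Sym2.mem_iff_exists.1 hx
  obtain ⟨b, rfl⟩ := Sym2.mem_iff_exists.1 hx'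
  refine ⟨((x, a), (x, b)), ?_, rfl⟩
  simp only [pairs, Finset.coe_filter, Finset.mem_product, Set.mem_ofPred_eq, mem_nonTree]
  exact ⟨⟨⟨he.1, he.2⟩, ⟨he'.1, he'.2⟩⟩, fun h => hee (by rw [(Prod.mk.inj h).2]), trivial⟩

theorem main {V : Type u} {W : Type*} [Finite V] [Finite W] (G : SimpleGraph V)
    (H : SimpleGraph W) (hG : IsNuRegular G) (hH : H.Connected)
    (hV : Nat.card W = Nat.card V) (hE : H.edgeSet.ncard = G.edgeSet.ncard) :
    cap G ≤ cap H := by
  have := Fintype.ofFinite V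
  have := Fintype.ofFinite W
  obtain ⟨u, hu, hq⟩ := hG
  have hle : starGraph u ≤ G := by
    intro a b h
    rw [starGraph_adj] at h
    rcases h with ⟨hne, rfl | rfl⟩
    · exact hu _ hne.symm
    · exact (hu _ hne).symm
  have h1 : cap G ≤ capT G (starGraph u) := Nat.sInf_le ⟨_, hle, isTree_starGraph u, rfl⟩
  obtain ⟨T, hT, hT', hcap⟩ : cap H ∈ {k | ∃ T : SimpleGraph W, T ≤ H ∧ T.IsTree ∧ capT H T = k} := by
    obtain ⟨T, hT, hT'⟩ := hH.exists_isTree_le
    exact Nat.sInf_mem ⟨_, T, hT, hT', rfl⟩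
  have h2 := capT_star_le hu _ hq
  have h3 := capT_ge hT hT' (2 * nu G / (Nat.card V - 1))
  have hnu : nu H = nu G := by rw [nu, nu, hV, hE]
  rw [hnu, hV] at h3
  have h4 := h2.trans h3
  rw [Nat.cast_le] at h4
  omega

end Pool.Agent.Work.MP_648063_co
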