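import Mathlib

/-!
Tree-cycles of a spanning tree, the intersection number, and nu-regular graphs.
-/

set_option autoImplicit false

namespace Pool.Agent.Work.MP_648063_co

universe u

variable {V : Type u}

/-- The tree-cycle closed by `e`: the set of edges lying on a cycle of `T ∪ {e}`. -/
def treeCycle (T : SimpleGraph V) (e : Sym2 V) : Set (Sym2 V) :=
  {f | ∃ (v : V) (c : (T ⊔ SimpleGraph.fromEdgeSet {e}).Walk v v), c.IsCycle ∧ f ∈ c.edges}

/-- The tree-cycles of `T` in `G`, one for each edge of `G` outside `T`. -/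
def treeCycles (G T : SimpleGraph V) : Set (Set (Sym2 V)) :=
  treeCycle T '' (G.edgeSet \ T.edgeSet)

/-- The number of unordered pairs of distinct tree-cycles with a common edge. -/
noncomputable def capT (G T : SimpleGraph V) : ℕ :=
  {p : Sym2 (Set (Sym2 V)) | ∃ C ∈ treeCycles G T, ∃ C' ∈ treeCycles G T,
    p = s(C, C') ∧ C ≠ C' ∧ (C ∩ C').Nonempty}.ncard

/-- The intersection number: the minimum of `capT G T` over the spanning trees `T` of `G`. -/
noncomputable def cap (G : SimpleGraph V) : ℕ :=
  sInf {k | ∃ T : SimpleGraph V, T ≤ G ∧ T.IsTree ∧ capT G T = k}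

/-- The cyclomatic number `m - n + 1`. -/
noncomputable def nu (G : SimpleGraph V) : ℕ :=
  G.edgeSet.ncard + 1 - Nat.card V

/-- `G` has a universal vertex and every other vertex has degree `q + 1` or `q + 2`, where `q` is
the quotient of `2 ν` by `n - 1`. -/
def IsNuRegular (G : SimpleGraph V) : Prop :=
  ∃ u : V, (∀ v, v ≠ u → G.Adj u v) ∧
    ∀ v, v ≠ u → (G.neighborSet v).ncard = 2 * nu G / (Nat.card V - 1) + 1 ∨
      (G.neighborSet v).ncard = 2 * nu G / (Nat.card V - 1) + 2

end Pool.Agent.Work.MP_648063_co
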